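import Pool.Agent.Lib_helper84.LV.Defs
import Pool.Agent.Lib_helper98.HN.Defs

/-!
# Newforms as eigenforms of all Hecke operators and of their adjoints: definitions
-/

namespace Pool.Agent.HSG.LV

open Complex MeasureTheory Filter Topology UpperHalfPlane NumberField IsDedekindDomain
open scoped nonZeroDivisors MatrixGroups ENNReal

variable {K : Type} [Field K] [NumberField K]

/-- Holomorphic cuspidal Hilbert modular forms of level `n`, weight `k`, archimedean twist `μ` and
central character `om`, as functions of a point of the product of upper half planes and a lattice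
with level structure. -/
structure PForm (n : Id K) (k : Em K → ℕ) (μ : Em K → ℝ) (om : Id K → ℂ)
    (F : (Em K → ℍ) → Pt n → ℂ) : Prop where
  holo : ∀ x, DifferentiableOn ℂ
    (fun z : Em K → ℂ => F (fun w => ofComplex (z w)) x) {z | ∀ w, 0 < (z w).im}
  slash : ∀ g : GL (Fin 2) K, (∀ w : Em K, 0 < w (g : Matrix (Fin 2) (Fin 2) K).det) →
    ∀ (z : Em K → ℍ) (x : Pt n), F (g • z) x = (∏ w, lz (g 1) z w ^ k w *
      ((w (g : Matrix (Fin 2) (Fin 2) K).det : ℝ) : ℂ) ^
        (-((k w : ℂ) / 2) - μ w * Complex.I)) * F z (x.mul g)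
  scal : ∀ (a : Id K) (x y : Pt n), Sc a x y → ∀ z, F z x = om a * F z y
  bdd : ∀ x, ∃ C : ℝ, ∀ z, ‖F z x‖ * ∏ w, (z w).im ^ ((k w : ℝ) / 2) ≤ C

/-- Newforms: nonzero eigenforms of all Hecke operators `T_p` and of their adjoints, with unitary
central character; `lam p` is the normalised eigenvalue of `T_p`. -/
structure PEig (n : Id K) (k : Em K → ℕ) (μ : Em K → ℝ) (om : Id K → ℂ) (lam : Pr K → ℂ)
    (F : (Em K → ℍ) → Pt n → ℂ) : Prop where
  form : PForm n k μ om F
  ne : ∃ z x, F z x ≠ 0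
  unit : ∀ a, Cp n a → ‖om a‖ = 1
  up : ∀ (p : Pr K) z x, Tp p (F z) x = ((√(qP p : ℝ) : ℝ) : ℂ) * lam p * F z x
  dn : ∀ (p : Pr K) z x, Ts p (F z) x =
    ((√(qP p : ℝ) : ℝ) : ℂ) * starRingEnd ℂ (lam p) * F z x

open scoped Classical in
/-- a form as a function of a lattice and a vector -/
noncomputable def raw {n : Id K} (F : (Em K → ℍ) → Pt n → ℂ) (z : Em K → ℍ) (L : Lat K)
    (v : Fin 2 → K) : ℂ :=
  if h : Prim n L v then F z (Pt.of L v h) else 0

open scoped Classical in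
/-- the central character, extended by zero -/
noncomputable def omF (n : Id K) (om : Id K → ℂ) (a : Id K) : ℂ := if Cp n a then om a else 0

/-- the values of the central character at the primes -/
noncomputable def wP (n : Id K) (om : Id K → ℂ) (p : Pr K) : ℂ := omF n om (pI p)

open scoped Classical in
/-- the function `λ` on the fractional ideals, zero at the ideals which are not integral -/
noncomputable def lamF (w lam : Pr K → ℂ) (m : Id K) : ℂ :=
  if h : ∃ j : Pr K →₀ ℕ, HS.idl j = m then hl w lam h.choose else 0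

/-- the Fourier coefficients of `F` at the points `(b ⊕ O, (0,1))` -/
structure CoS {n : Id K} (k : Em K → ℕ) (μ : Em K → ℝ) (F : (Em K → ℍ) → Pt n → ℂ)
    (A : Id K → ℂ) : Prop where
  int : ∀ m, ¬ IsInt m → A m = 0
  bdd : ∃ C : ℝ, ∀ m, ‖A m‖ ≤ C
  exp : ∀ (b : Id K) (z : Em K → ℍ), HasSum (fun ξ : Kp K => A (prI ξ.1 * DD K / b) *
    N.xk k μ ((ξ.1 : Kˣ) : K) * eT ((ξ.1 : Kˣ) : K) z) (F z (sS n b))

/-- the Fourier coefficients of `F` at the points `(O ⊕ b, (1,0))` -/
structure CoZ {n : Id K} (k : Em K → ℕ) (μ : Em K → ℝ) (F : (Em K → ℍ) → Pt n → ℂ)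
    (B : Id K → ℂ) : Prop where
  int : ∀ m, ¬ IsInt m → B m = 0
  bdd : ∃ C : ℝ, ∀ m, ‖B m‖ ≤ C
  exp : ∀ (b : Id K) (z : Em K → ℍ), HasSum (fun ξ : Kp K => B (prI ξ.1 * (n * b * DD K)) *
    N.xk k (-μ) ((ξ.1 : Kˣ) : K) * eT ((ξ.1 : Kˣ) : K) z) (F z (sZ n b))

end Pool.Agent.HSG.LV
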